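import Pool.Agent.LE.StmtsQZ

/-!
# Squad LQZ, row MOM: the smallest momentum and the second moment
-/

set_option autoImplicit false

open scoped ENNReal BigOperators Topology NNReal ComplexOrder Matrix

noncomputable section

namespace Pool.Agent.LE.QZ.H1

open Pool.Agent.Anderson hiding box mem_box card_box
open Pool.Agent.Loc Pool.Agent.Mob Pool.Agent.Helper54.Bal
  Pool.Agent.Helper96.EXP Pool.Agent.BED
open Pool.Agent.LE.MN Pool.Agent.LE.CL Pool.Agent.LE.IR Pool.Agent.LE.QD Pool.Agent.LE.QF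

/-- the form of the Laplacian -/
theorem mom_qf {X : Type} [Fintype X] [DecidableEq X] (K : Matrix X X ℝ)
    (hK : ∀ a b, K a b = K b a) (f : X → ℝ) :
    QF.qf (Dl K) f = 1 / 2 * ∑ x, ∑ y, K x y * (f x - f y) ^ 2 := by
  have h1 : QF.qf (Dl K) f = ∑ x, ∑ y, K x y * (f x * (f x - f y)) := by
    unfold QF.qf Dl
    refine Finset.sum_congr rfl fun x _ => ?_
    rw [Matrix.sub_mulVec, Pi.sub_apply, Matrix.mulVec_diagonal, Matrix.mulVec, dotProduct,
      Finset.sum_mul, ← Finset.sum_sub_distrib, Finset.mul_sum]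
    refine Finset.sum_congr rfl fun y _ => ?_
    ring
  have h2 : QF.qf (Dl K) f = ∑ x, ∑ y, K x y * (f y * (f y - f x)) := by
    rw [h1, Finset.sum_comm]
    refine Finset.sum_congr rfl fun x _ => Finset.sum_congr rfl fun y _ => ?_
    rw [hK y x]
  have h3 : QF.qf (Dl K) f + QF.qf (Dl K) f = ∑ x, ∑ y, K x y * (f x - f y) ^ 2 := by
    nth_rewrite 1 [h1]
    rw [h2, ← Finset.sum_add_distrib]
    refine Finset.sum_congr rfl fun x _ => ?_
    rw [← Finset.sum_add_distrib]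
    refine Finset.sum_congr rfl fun y _ => ?_
    ring
  linarith only [h3]

/-- the exponential with the smallest momentum -/
theorem mom_ec {d M : ℕ} [NeZero M] (i : Fin d) (x : Tor d M) :
    ec (Pi.single i 1) x = ZMod.stdAddChar (x i) := by
  unfold ec
  rw [Finset.prod_eq_single i]
  · simp
  · intro b _ hb
    simp [hb]
  · intro h
    exact absurd (Finset.mem_univ i) h

/-- the distance of two characters -/
theorem mom_dist {M : ℕ} [NeZero M] (a b : ZMod M) :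
    16 / (M : ℝ) ^ 2 * ((a - b).valMinAbs : ℝ) ^ 2 ≤
      ((ZMod.stdAddChar a : ℂ).re - (ZMod.stdAddChar b : ℂ).re) ^ 2 +
        ((ZMod.stdAddChar a : ℂ).im - (ZMod.stdAddChar b : ℂ).im) ^ 2 := by
  have hM : (0 : ℝ) < M := by exact_mod_cast Nat.pos_of_ne_zero (NeZero.ne M)
  set v : ℤ := (a - b).valMinAbs with hv
  have hab : a = b + ((v : ℤ) : ZMod M) := by
    rw [hv, ZMod.coe_valMinAbs]
    ring
  set t : ℝ := 2 * Real.pi * v / M with ht
  have h1 : (ZMod.stdAddChar a : ℂ) = ZMod.stdAddChar b * Complex.exp ((t : ℂ) * Complex.I) := by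
    rw [hab, AddChar.map_add_eq_mul, ZMod.stdAddChar_coe]
    have e1 : 2 * (Real.pi : ℂ) * Complex.I * (v : ℂ) / (M : ℂ) = (t : ℂ) * Complex.I := by
      rw [ht]
      push_cast
      ring
    rw [e1]
  have h2 : (Complex.exp ((t : ℂ) * Complex.I)).re = Real.cos t := Complex.exp_ofReal_mul_I_re t
  have h3 : (Complex.exp ((t : ℂ) * Complex.I)).im = Real.sin t := Complex.exp_ofReal_mul_I_im t
  have h4 : (ZMod.stdAddChar b : ℂ).re ^ 2 + (ZMod.stdAddChar b : ℂ).im ^ 2 = 1 := by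
    have e1 : ‖(ZMod.stdAddChar b : ℂ)‖ = 1 := AddChar.norm_apply _ _
    have e2 := Complex.sq_norm (ZMod.stdAddChar b : ℂ)
    rw [e1, Complex.normSq_apply] at e2
    linarith only [e2]
  have h5 := Real.sin_sq_add_cos_sq t
  have habs : |t| ≤ Real.pi := by
    have e1 := ZMod.valMinAbs_mem_Ioc (a - b)
    rw [← hv] at e1
    have e2 : |(v : ℝ)| * 2 ≤ M := by
      have f1 : -(M : ℝ) ≤ v * 2 := by exact_mod_cast e1.1.le
      have f2 : (v : ℝ) * 2 ≤ M := by exact_mod_cast e1.2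
      have f3 : |(v : ℝ) * 2| ≤ M := abs_le.2 ⟨f1, f2⟩
      rw [abs_mul, abs_two] at f3
      exact f3
    rw [ht, abs_div, abs_mul, abs_mul, abs_two, abs_of_pos Real.pi_pos, abs_of_pos hM,
      div_le_iff₀ hM]
    nlinarith only [e2, Real.pi_pos]
  have h6 := Real.cos_le_one_sub_mul_cos_sq habs
  have h7 : 2 / Real.pi ^ 2 * t ^ 2 = 8 / (M : ℝ) ^ 2 * (v : ℝ) ^ 2 := by
    rw [ht]
    have := Real.pi_pos
    field_simp
    ring
  rw [h1, Complex.mul_re, Complex.mul_im, h2, h3]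
  set r : ℝ := (ZMod.stdAddChar b : ℂ).re
  set s : ℝ := (ZMod.stdAddChar b : ℂ).im
  have h8 : (r * Real.cos t - s * Real.sin t - r) ^ 2 + (r * Real.sin t + s * Real.cos t - s) ^ 2 =
      (r ^ 2 + s ^ 2) * (Real.sin t ^ 2 + Real.cos t ^ 2 + 1 - 2 * Real.cos t) := by ring
  rw [h8, h4, h5]
  have h9 : 16 / (M : ℝ) ^ 2 * (v : ℝ) ^ 2 = 2 * (8 / (M : ℝ) ^ 2 * (v : ℝ) ^ 2) := by ring
  rw [h9, ← h7]
  linarith only [h6]

/-- MOM -/
theorem mom : MomStmt := by
  intro d M _ K i hK hK0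
  rw [mom_qf K hK, mom_qf K hK, ← mul_add, ← Finset.sum_add_distrib, Finset.mul_sum,
    Finset.mul_sum]
  refine Finset.sum_le_sum fun x _ => ?_
  rw [← Finset.sum_add_distrib, Finset.mul_sum, Finset.mul_sum]
  refine Finset.sum_le_sum fun y _ => ?_
  rw [← mul_add, mom_ec, mom_ec]
  have h := mom_dist (x i) (y i)
  have h2 : ((x - y) i) = x i - y i := rfl
  rw [h2]
  calc 8 / (M : ℝ) ^ 2 * (K x y * ((x i - y i).valMinAbs : ℝ) ^ 2)
      = 1 / 2 * (K x y * (16 / (M : ℝ) ^ 2 * ((x i - y i).valMinAbs : ℝ) ^ 2)) := by ring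
    _ ≤ _ := mul_le_mul_of_nonneg_left (mul_le_mul_of_nonneg_left h (hK0 x y)) (by norm_num)

end Pool.Agent.LE.QZ.H1
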