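import Pool.Agent.LE.StmtsQZ

/-!
# Squad LQZ, row UPC: the part of `Λ` of the functional

A copy of `Helper69_LQX/UPC.lean` with the changes of `DefsQZ.lean`.
-/

set_option autoImplicit false

open scoped ENNReal BigOperators Topology NNReal ComplexOrder Matrix

noncomputable section

namespace Pool.Agent.LE.QZ.H1

open Pool.Agent.Anderson hiding box mem_box card_box
open Pool.Agent.Loc Pool.Agent.Mob Pool.Agent.Helper54.Bal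
  Pool.Agent.Helper96.EXP Pool.Agent.BED
open Pool.Agent.LE.MN Pool.Agent.LE.CL Pool.Agent.LE.IR Pool.Agent.LE.QD Pool.Agent.LE.QF

/-- the numbers -/
theorem upc_num {j p : ℕ} {δ e₀ L₀ N w π₀ h ch C₀ CL U R κ l : ℝ} (hδ : 0 < δ)
    (he : 1 ≤ e₀) (hL : 1 ≤ L₀) (hN : 1 ≤ N) (hw : 0 ≤ w) (hπ : 0 ≤ π₀) (hch : 0 ≤ ch)
    (hC₀ : 1 ≤ C₀) (hCL : 1 ≤ CL) (hκ : 0 < κ) (hU : 0 ≤ U) (hR : 0 ≤ R)
    (hl : l ≤ 6 * (j : ℝ) ^ 2 * (2 * CL / κ) * (1 / Real.sqrt L₀ + (C₀ * δ + (e₀ - 1))) *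
      (U + R)) :
    l ≤ 12 * CL * (1 + C₀) * (j * (h ^ 2 * (δ + Real.sqrt ch / δ)) +
      j ^ 2 * (h ^ 4 * (ch / δ ^ 2) + N * w + δ +
        1 / Real.sqrt L₀ + (e₀ - 1)) + p * δ + p ^ 2 * (N * w + δ ^ 2 + π₀)) / κ *
      (U + R) := by
  have hL0 : 0 < L₀ := by linarith only [hL]
  have hN0 : 0 < N := by linarith only [hN]
  have hs : 0 ≤ 1 / Real.sqrt L₀ := by positivity
  set B : ℝ := δ + 1 / Real.sqrt L₀ + (e₀ - 1) with hB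
  have hB0 : 0 ≤ B := by
    rw [hB]
    linarith only [hs, hδ, he]
  have h1 : 1 / Real.sqrt L₀ + (C₀ * δ + (e₀ - 1)) ≤ (1 + C₀) * B := by
    have e2 : 0 ≤ C₀ * (1 / Real.sqrt L₀) := mul_nonneg (by linarith only [hC₀]) hs
    have e3 : 0 ≤ C₀ * (e₀ - 1) :=
      mul_nonneg (by linarith only [hC₀]) (by linarith only [he])
    rw [hB]
    linarith only [hδ, e2, e3]
  set S : ℝ := j * (h ^ 2 * (δ + Real.sqrt ch / δ)) +
      j ^ 2 * (h ^ 4 * (ch / δ ^ 2) + N * w + δ +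
        1 / Real.sqrt L₀ + (e₀ - 1)) + p * δ + p ^ 2 * (N * w + δ ^ 2 + π₀) with hS
  have h2 : (j : ℝ) ^ 2 * B ≤ S := by
    have e1 : 0 ≤ (j : ℝ) * (h ^ 2 * (δ + Real.sqrt ch / δ)) := by
      positivity
    have e2 : 0 ≤ (j : ℝ) ^ 2 * (h ^ 4 * (ch / δ ^ 2) + N * w) := by
      have f1 : 0 ≤ h ^ 4 * (ch / δ ^ 2) := by
        have : 0 ≤ h ^ 4 := by positivity
        positivity
      positivity
    have e3 : 0 ≤ (p : ℝ) * δ := by positivity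
    have e4 : 0 ≤ (p : ℝ) ^ 2 * (N * w + δ ^ 2 + π₀) := by positivity
    rw [hB, hS]
    linarith only [e1, e2, e3, e4]
  refine hl.trans (mul_le_mul_of_nonneg_right ?_ (add_nonneg hU hR))
  have h3 : (j : ℝ) ^ 2 * (1 / Real.sqrt L₀ + (C₀ * δ + (e₀ - 1))) ≤ (1 + C₀) * S := by
    calc (j : ℝ) ^ 2 * (1 / Real.sqrt L₀ + (C₀ * δ + (e₀ - 1)))
        ≤ (j : ℝ) ^ 2 * ((1 + C₀) * B) := mul_le_mul_of_nonneg_left h1 (by positivity)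
      _ = (1 + C₀) * ((j : ℝ) ^ 2 * B) := by ring
      _ ≤ (1 + C₀) * S := mul_le_mul_of_nonneg_left h2 (by linarith only [hC₀])
  calc 6 * (j : ℝ) ^ 2 * (2 * CL / κ) * (1 / Real.sqrt L₀ + (C₀ * δ + (e₀ - 1)))
      = 12 * CL / κ * ((j : ℝ) ^ 2 * (1 / Real.sqrt L₀ + (C₀ * δ + (e₀ - 1)))) := by ring
    _ ≤ 12 * CL / κ * ((1 + C₀) * S) := mul_le_mul_of_nonneg_left h3 (by positivity)
    _ = 12 * CL * (1 + C₀) * S / κ := by ring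

/-- the bounds of drift and gradient -/
theorem upc_ineq {L₀ N π₀ κ δ L v ε₃ C l γ : ℝ} (hL₀ : 1 ≤ L₀) (hN : 1 ≤ N) (hκ : 0 < κ)
    (hδ : 0 ≤ δ) (hδ1 : δ ≤ 1) (hπ : 0 ≤ π₀) (hC : 1 ≤ C) (hv : 0 ≤ v) (hε₃ : 0 ≤ ε₃)
    (hL : L = L₀ * (N + π₀ / κ + δ ^ 4 / κ))
    (hl : l ≤ C / κ * (π₀ / κ + ε₃ * v +
      Real.sqrt (v * (δ ^ 2 * (N + δ ^ 2 / κ)))))
    (hγ : γ ≤ v * (C / κ * (π₀ / κ + ε₃ * v))) :
    l ≤ 2 * C / κ * (L / L₀ + Real.sqrt (L * v / L₀) + ε₃ * v) ∧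
    γ ≤ v * (2 * C / κ * (L / L₀ + Real.sqrt (L * v / L₀) + ε₃ * v)) := by
  have hL0 : 0 < L₀ := by linarith only [hL₀]
  have hN0 : 0 < N := by linarith only [hN]
  have e1 : L / L₀ = N + π₀ / κ + δ ^ 4 / κ := by
    rw [hL]
    field_simp
  have e2 : L * v / L₀ = (N + π₀ / κ + δ ^ 4 / κ) * v := by
    rw [← e1]
    ring
  have hπκ : 0 ≤ π₀ / κ := by positivity
  have hδκ : 0 ≤ δ ^ 4 / κ := by positivity
  have e3 : π₀ / κ ≤ L / L₀ := by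
    rw [e1]
    linarith only [hN0, hδκ]
  have e4 : δ ^ 2 * (N + δ ^ 2 / κ) ≤ N + π₀ / κ + δ ^ 4 / κ := by
    have f1 : δ ^ 2 ≤ 1 := pow_le_one₀ hδ hδ1
    have f2 : δ ^ 2 * N ≤ 1 * N := mul_le_mul_of_nonneg_right f1 hN0.le
    have f3 : δ ^ 2 * (N + δ ^ 2 / κ) = δ ^ 2 * N + δ ^ 4 / κ := by ring
    rw [f3]
    linarith only [f2, hπκ]
  have e6 : Real.sqrt (v * (δ ^ 2 * (N + δ ^ 2 / κ))) ≤ Real.sqrt (L * v / L₀) := by
    apply Real.sqrt_le_sqrt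
    rw [e2, mul_comm v]
    exact mul_le_mul_of_nonneg_right e4 hv
  have hs := Real.sqrt_nonneg (L * v / L₀)
  have hCκ : 0 ≤ C / κ := by positivity
  have hε₃v : 0 ≤ ε₃ * v := mul_nonneg hε₃ hv
  have hLL : 0 ≤ L / L₀ := hπκ.trans e3
  have k1 : C / κ * (π₀ / κ + ε₃ * v +
      Real.sqrt (v * (δ ^ 2 * (N + δ ^ 2 / κ)))) ≤
      2 * C / κ * (L / L₀ + Real.sqrt (L * v / L₀) + ε₃ * v) := by
    calc _ ≤ C / κ * (2 * (L / L₀ + Real.sqrt (L * v / L₀) + ε₃ * v)) := by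
          apply mul_le_mul_of_nonneg_left _ hCκ
          linarith only [e3, e6, hs, hLL, hε₃v]
      _ = _ := by ring
  have k2 : C / κ * (π₀ / κ + ε₃ * v) ≤
      2 * C / κ * (L / L₀ + Real.sqrt (L * v / L₀) + ε₃ * v) := by
    calc _ ≤ C / κ * (2 * (L / L₀ + Real.sqrt (L * v / L₀) + ε₃ * v)) := by
          apply mul_le_mul_of_nonneg_left _ hCκ
          linarith only [e3, hs, hLL, hε₃v]
      _ = _ := by ring
  exact ⟨hl.trans k1, hγ.trans (mul_le_mul_of_nonneg_left k2 hv)⟩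

/-- UPC -/
theorem upc (jtl : JtlStmt) (lmb : QZ.LmbStmt) (lmu : LmuStmt) (rsj : QZ.RsjStmt) :
    QZ.UpcStmt := by
  intro c₁ C₁ C₀ hc₁ hC₁ hC₀
  obtain ⟨CL, hCL, hlmb⟩ := lmb C₀ hC₀
  refine ⟨12 * CL * (1 + C₀), ?_, ?_⟩
  · nlinarith only [hCL, hC₀]
  intro d M _ D c₀ κ τ q _ hA hq0 hqT hG
  obtain ⟨hκk, hτt, hηκ, -, hτ0, -, -⟩ := hG.hκ
  obtain ⟨hκ0, hκ1, -, -, -⟩ := hG.hG.hκ
  obtain ⟨hδ0, hCδ, hN1⟩ := hG.hG.hδ
  have hkp : 0 < D.kp q.1 := hκk ▸ hκ0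
  obtain ⟨hJ, -, -, -, -, hLs, hLs'⟩ := rsj d M D c₁ C₁ c₀ q hc₁ hA hkp
  obtain ⟨hj, hp, hL₀, hN, hπ⟩ := hA.hj
  have hδp := hA.hδ.1
  obtain ⟨he1, he01, -⟩ := hA.he
  obtain ⟨hS1, hS2, -, hS4⟩ := hA.hS
  have hη := hA.hT.2.1
  have he : 1 ≤ D.e₀ := he1.le.trans he01
  have hε₃ : 0 ≤ C₀ * D.δ + (D.e₀ - 1) := by
    have : 0 ≤ C₀ * D.δ := mul_nonneg (by linarith only [hC₀]) hδ0
    linarith only [this, he]
  have hδ1 : D.δ ≤ 1 := by nlinarith only [hCδ, hC₀, hδ0]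
  have hL : D.Ls q.1 = D.L₀ * (D.N + D.π₀ / κ + D.δ ^ 4 / κ) := by
    rw [hκk]
    rfl
  have hLpos : 0 < D.Ls q.1 := by
    rw [hL]
    have h1 : 0 ≤ D.π₀ / κ := by positivity
    have h2 : 0 ≤ D.δ ^ 4 / κ := by positivity
    have h3 : 0 < D.L₀ := by linarith only [hL₀]
    exact mul_pos h3 (by linarith only [h1, h2, hN])
  have hcardeq : (Fintype.card (Tor d M) : ℝ) = (M : ℝ) ^ d := by
    rw [show Fintype.card (Tor d M) = M ^ d from by simp [Tor, ZMod.card]]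
    push_cast
    rfl
  have hMd : (0 : ℝ) < (M : ℝ) ^ d := by
    have h1 : 0 < M := Nat.pos_of_ne_zero (NeZero.ne M)
    positivity
  have hSd : ∀ a, D.S a a + 1 / (κ * (Fintype.card (Tor d M) : ℝ)) ≤ D.π₀ := by
    intro a
    refine le_trans (add_le_add le_rfl ?_) (hS4 a)
    rw [hcardeq]
    exact one_div_le_one_div_of_le (mul_pos hη hMd) (mul_le_mul_of_nonneg_right hηκ hMd.le)
  have hv : ∀ a, 0 ≤ D.La q a := fun a => Finset.sum_nonneg fun b _ => sq_nonneg _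
  have hjet : ∀ a, HJ (fun r => D.La r a) q (D.La q a)
      (fun c => 2 * ∑ b, KK (D.G q) a b * dK (D.G q) c a b) (lLa (D.G q) (D.mu q) a) :=
    fun a => jtl (Tor d M) q D.G D.ta (D.G q) D.m (D.ta q.1) (D.mu q) hJ rfl a
  have hb : ∀ a, lLa (D.G q) (D.mu q) a ≤ 2 * CL / κ * (D.Ls q.1 / D.L₀ +
        Real.sqrt (D.Ls q.1 * D.La q a / D.L₀) + (C₀ * D.δ + (D.e₀ - 1)) * D.La q a) ∧
      ∑ c, (2 * ∑ b, KK (D.G q) a b * dK (D.G q) c a b) ^ 2 ≤ D.La q a * (2 * CL / κ *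
        (D.Ls q.1 / D.L₀ + Real.sqrt (D.Ls q.1 * D.La q a / D.L₀) +
          (C₀ * D.δ + (D.e₀ - 1)) * D.La q a)) := by
    intro a
    obtain ⟨b1, b2⟩ := hlmb (Tor d M) (D.G q) (D.mu q) D.nr D.S κ τ D.δ D.N D.π₀
      (C₀ * D.δ + (D.e₀ - 1)) a hG.hG hε₃ hS1 hS2 hSd hG.hK
    exact upc_ineq hL₀ hN hκ0 hδ0 hδ1 hπ hCL (hv a) hε₃ hL b1 b2
  obtain ⟨g', l', hU, hl'⟩ := lmu (Tor d M) q (Tor d M) (fun a r => D.La r a) (fun a => D.La q a)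
    (fun a => lLa (D.G q) (D.mu q) a)
    (fun a c => 2 * ∑ b, KK (D.G q) a b * dK (D.G q) c a b) D.Ls (2 * CL) κ (D.Ls q.1) D.L₀
    (C₀ * D.δ + (D.e₀ - 1)) D.j (by linarith only [hCL]) hκ0 hLpos hL₀
    hε₃ (by omega) hjet hLs rfl hLs' hv (fun a => (hb a).1)
    (fun a => (hb a).2)
  have hU' : HJ D.U4 q (D.U4 q) g' l' := hU
  refine ⟨hU'.sm, ?_⟩
  rw [hU'.ge]
  have hU0 : 0 ≤ D.U4 q := Finset.sum_nonneg fun a _ => pow_nonneg (div_nonneg (hv a) hLpos.le) _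
  have hM1 : (1 : ℝ) ≤ (M : ℝ) ^ d := by
    have h1 : 1 ≤ M := Nat.one_le_iff_ne_zero.2 (NeZero.ne M)
    exact one_le_pow₀ (by exact_mod_cast h1)
  have hcard : (Fintype.card (Tor d M) : ℝ) ≤ ((M : ℝ) ^ d) ^ 2 := by
    rw [hcardeq]
    nlinarith only [hM1]
  have hR : (Fintype.card (Tor d M) : ℝ) * (1 / 4) ^ D.j ≤ ((M : ℝ) ^ d) ^ 2 * (1 / 4) ^ D.j :=
    mul_le_mul_of_nonneg_right hcard (by positivity)
  have hw : 0 ≤ D.w := by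
    have h1 := hA.hm.1
    have h2 := hA.hT
    change 0 ≤ D.η + (D.T - 0) * D.m.im
    have h3 : 0 ≤ (D.T - 0) * D.m.im :=
      mul_nonneg (by linarith only [h2.1]) (by linarith only [h1, hc₁])
    linarith only [h3, h2.2.1]
  have hch : 0 ≤ D.ch := by
    change 0 ≤ D.L₀ * (D.N * D.w + D.π₀ + D.δ ^ 4)
    have h1 : 0 ≤ D.N * D.w := mul_nonneg (by linarith only [hN]) hw
    have h2 : 0 ≤ D.δ ^ 4 := by positivity
    exact mul_nonneg (by linarith only [hL₀]) (by linarith only [h1, h2, hπ])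
  refine upc_num (j := D.j) (p := D.p) (h := D.h) (ch := D.ch) hδp he hL₀ hN hw hπ hch hC₀ hCL
    hκ0 hU0 (by positivity) ?_
  refine hl'.trans ?_
  have hfac : 0 ≤ 6 * (D.j : ℝ) ^ 2 * (2 * CL / κ) *
      (1 / Real.sqrt D.L₀ + (C₀ * D.δ + (D.e₀ - 1))) := by
    have h1 : 0 ≤ 1 / Real.sqrt D.L₀ := by positivity
    have h2 : 0 ≤ 1 / Real.sqrt D.L₀ + (C₀ * D.δ + (D.e₀ - 1)) := by
      linarith only [h1, hε₃]
    have h3 : 0 ≤ 2 * CL / κ := by positivity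
    positivity
  exact mul_le_mul_of_nonneg_left (add_le_add le_rfl hR) hfac

end Pool.Agent.LE.QZ.H1
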